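import Mathlib

/-!
# A solution of the weighted pendulum equation that leaves the expected range

We give an explicit weight `a` (even, `C¹`, with values in `[1, 2]`, equal to `1` outside `[-π, π]`)
and an explicit odd function `φ` which solves `(a φ')' + a sin φ cos φ = 0` on the whole line, tends
to `± π / 2` at `± ∞`, vanishes at `0`, and is negative on `(0, π)`.

The trick: with `s = tan φ` and `b = a / (1 + s ^ 2)` the equation reads `(b s')' + b s = 0`.
On `[-π, π]` we take `b = 1`, `s = - sin x`; outside we glue the heteroclinic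
`s = sinh (x ∓ π)`, `a = 1`.
-/

open MeasureTheory Set Filter Topology

namespace Pool.Agent.Results.MP_4601b9_an.CentreConstraint

/-- Condition (C): a measurable weight which is a.e. between two positive constants. -/
def IsWeight (a : ℝ → ℝ) : Prop :=
  Measurable a ∧ ∃ a₀ A₀ : ℝ, 0 < a₀ ∧ a₀ ≤ A₀ ∧ ∀ᵐ x : ℝ, a₀ ≤ a x ∧ a x ≤ A₀

/-- `η` is a test function in `Ω`: smooth, with compact support contained in `Ω`. -/
def IsTest (Ω : Set ℝ) (η : ℝ → ℝ) : Prop :=
  ContDiff ℝ ((⊤ : ℕ∞) : WithTop ℕ∞) η ∧ HasCompactSupport η ∧ tsupport η ⊆ Ω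

/-- `φ` is a continuous function in the space `Ḣ¹(ℝ)` and `g ∈ L²(ℝ)` is its distributional
derivative. -/
def IsHdotOne (φ g : ℝ → ℝ) : Prop :=
  Continuous φ ∧ MemLp g 2 volume ∧
    ∀ η : ℝ → ℝ, IsTest univ η → ∫ x, φ x * deriv η x = - ∫ x, g x * η x

/-- The equation `(a g)' + a sin φ cos φ = 0` in the sense of distributions on `Ω`
(here `g` is the distributional derivative of `φ`). -/
def SolvesE (Ω : Set ℝ) (a φ g : ℝ → ℝ) : Prop :=
  ∀ η : ℝ → ℝ, IsTest Ω η →
    ∫ x, (a x * g x) * deriv η x = ∫ x, (a x * Real.sin (φ x) * Real.cos (φ x)) * η x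

/-- The constraints (K). -/
def Constraint (φ : ℝ → ℝ) : Prop :=
  φ 0 = 0 ∧ Tendsto φ atTop (𝓝 (Real.pi / 2)) ∧ Tendsto φ atBot (𝓝 (-(Real.pi / 2)))

/-! ### Gluing two differentiable functions -/

lemma hasDerivAt_glue {f₁ f₂ f₁' f₂' : ℝ → ℝ} {c : ℝ}
    (h₁ : ∀ x, HasDerivAt f₁ (f₁' x) x) (h₂ : ∀ x, HasDerivAt f₂ (f₂' x) x)
    (hc : f₁ c = f₂ c) (hc' : f₁' c = f₂' c) (x : ℝ) :
    HasDerivAt (fun y => if y ≤ c then f₁ y else f₂ y) (if x ≤ c then f₁' x else f₂' x) x := by
  rcases lt_trichotomy x c with hx | hx | hx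
  · have : (fun y => if y ≤ c then f₁ y else f₂ y) =ᶠ[𝓝 x] f₁ := by
      filter_upwards [Iio_mem_nhds hx] with y hy
      simp [le_of_lt (show y < c from hy)]
    rw [if_pos hx.le]
    exact (h₁ x).congr_of_eventuallyEq this
  · subst hx
    rw [if_pos le_rfl]
    have hl : HasDerivWithinAt (fun y => if y ≤ x then f₁ y else f₂ y) (f₁' x) (Iic x) x := by
      refine (h₁ x).hasDerivWithinAt.congr ?_ ?_
      · intro y hy
        simp [show y ≤ x from hy]
      · simp
    have hr : HasDerivWithinAt (fun y => if y ≤ x then f₁ y else f₂ y) (f₁' x) (Ici x) x := by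
      rw [hc']
      refine (h₂ x).hasDerivWithinAt.congr ?_ ?_
      · intro y hy
        rcases eq_or_lt_of_le (show x ≤ y from hy) with h | h
        · subst h; simp [hc]
        · simp [not_le.mpr h]
      · simp [hc]
    have := hl.union hr
    rwa [Iic_union_Ici, hasDerivWithinAt_univ] at this
  · have : (fun y => if y ≤ c then f₁ y else f₂ y) =ᶠ[𝓝 x] f₂ := by
      filter_upwards [Ioi_mem_nhds hx] with y hy
      simp [not_le.mpr (show c < y from hy)]
    rw [if_neg (not_le.mpr hx)]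
    exact (h₂ x).congr_of_eventuallyEq this

/-- Gluing three functions at `-π` and `π`. -/
noncomputable def glue (f₁ f₂ f₃ : ℝ → ℝ) (x : ℝ) : ℝ :=
  if x ≤ Real.pi then (if x ≤ -Real.pi then f₁ x else f₂ x) else f₃ x

lemma hasDerivAt_glue3 {f₁ f₂ f₃ f₁' f₂' f₃' : ℝ → ℝ}
    (h₁ : ∀ x, HasDerivAt f₁ (f₁' x) x) (h₂ : ∀ x, HasDerivAt f₂ (f₂' x) x)
    (h₃ : ∀ x, HasDerivAt f₃ (f₃' x) x)
    (h12 : f₁ (-Real.pi) = f₂ (-Real.pi)) (h12' : f₁' (-Real.pi) = f₂' (-Real.pi))
    (h23 : f₂ Real.pi = f₃ Real.pi) (h23' : f₂' Real.pi = f₃' Real.pi) (x : ℝ) :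
    HasDerivAt (glue f₁ f₂ f₃) (glue f₁' f₂' f₃' x) x := by
  have hpi := Real.pi_pos
  unfold glue
  have hne : ¬ (Real.pi ≤ -Real.pi) := by linarith
  exact hasDerivAt_glue (f₁ := fun y => if y ≤ -Real.pi then f₁ y else f₂ y)
    (f₁' := fun y => if y ≤ -Real.pi then f₁' y else f₂' y)
    (hasDerivAt_glue h₁ h₂ h12 h12') h₃ (by simp [hne, h23]) (by simp [hne, h23']) x

lemma glue_cases {P : ℝ → ℝ → Prop} (f₁ f₂ f₃ : ℝ → ℝ)
    (h₁ : ∀ x ≤ -Real.pi, P x (f₁ x)) (h₂ : ∀ x, -Real.pi < x → x ≤ Real.pi → P x (f₂ x))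
    (h₃ : ∀ x, Real.pi < x → P x (f₃ x)) (x : ℝ) : P x (glue f₁ f₂ f₃ x) := by
  unfold glue
  split_ifs with h h'
  · exact h₁ x h'
  · exact h₂ x (not_le.mp h') h
  · exact h₃ x (not_le.mp h)

/-! ### The explicit functions -/

/-- `s = tan φ`. -/
noncomputable def s : ℝ → ℝ :=
  glue (fun x => Real.sinh (x + Real.pi)) (fun x => -Real.sin x) (fun x => Real.sinh (x - Real.pi))

/-- The derivative of `s`. -/
noncomputable def s' : ℝ → ℝ :=
  glue (fun x => Real.cosh (x + Real.pi)) (fun x => -Real.cos x) (fun x => Real.cosh (x - Real.pi))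

/-- The weight. -/
noncomputable def a : ℝ → ℝ := glue (fun _ => 1) (fun x => 1 + Real.sin x ^ 2) (fun _ => 1)

/-- The solution. -/
noncomputable def φ (x : ℝ) : ℝ := Real.arctan (s x)

/-- Its derivative. -/
noncomputable def g (x : ℝ) : ℝ := s' x / (1 + s x ^ 2)

/-- The flux `a φ'`. -/
noncomputable def F : ℝ → ℝ :=
  glue (fun x => (Real.cosh (x + Real.pi))⁻¹) (fun x => -Real.cos x)
    (fun x => (Real.cosh (x - Real.pi))⁻¹)

/-- The derivative of the flux. -/
noncomputable def F' : ℝ → ℝ :=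
  glue (fun x => -Real.sinh (x + Real.pi) / Real.cosh (x + Real.pi) ^ 2) (fun x => Real.sin x)
    (fun x => -Real.sinh (x - Real.pi) / Real.cosh (x - Real.pi) ^ 2)

lemma hasDerivAt_s (x : ℝ) : HasDerivAt s (s' x) x := by
  refine hasDerivAt_glue3 ?_ ?_ ?_ ?_ ?_ ?_ ?_ x
  · intro x
    simpa using ((hasDerivAt_id x).add_const Real.pi).sinh
  · intro x
    exact (Real.hasDerivAt_sin x).neg
  · intro x
    simpa using ((hasDerivAt_id x).sub_const Real.pi).sinh
  · simp
  · simp
  · simp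
  · simp

lemma hasDerivAt_F (x : ℝ) : HasDerivAt F (F' x) x := by
  refine hasDerivAt_glue3 ?_ ?_ ?_ ?_ ?_ ?_ ?_ x
  · intro x
    have := (((hasDerivAt_id x).add_const Real.pi).cosh).fun_inv (Real.cosh_pos _).ne'
    simpa using this
  · intro x
    simpa using (Real.hasDerivAt_cos x).fun_neg
  · intro x
    have := (((hasDerivAt_id x).sub_const Real.pi).cosh).fun_inv (Real.cosh_pos _).ne'
    simpa using this
  · simp
  · simp
  · simp
  · simp

lemma hasDerivAt_a (x : ℝ) :
    HasDerivAt a (glue (fun _ => 0) (fun x => 2 * Real.sin x * Real.cos x) (fun _ => 0) x) x := by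
  refine hasDerivAt_glue3 ?_ ?_ ?_ ?_ ?_ ?_ ?_ x
  · intro x; exact hasDerivAt_const x 1
  · intro x
    have := ((Real.hasDerivAt_sin x).pow 2).const_add 1
    simpa using this
  · intro x; exact hasDerivAt_const x 1
  · simp
  · simp
  · simp
  · simp

/-! ### Algebraic identities -/

lemma a_mul_g (x : ℝ) : a x * g x = F x := by
  unfold a g F s s' glue
  split_ifs
  · have h := Real.cosh_pos (x + Real.pi)
    have h2 := Real.cosh_sq' (x + Real.pi)
    rw [← h2]
    field_simp
  · have h : 0 < 1 + Real.sin x ^ 2 := by positivity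
    have h3 : 1 + (-Real.sin x) ^ 2 = 1 + Real.sin x ^ 2 := by ring
    rw [h3]
    field_simp
  · have h := Real.cosh_pos (x - Real.pi)
    have h2 := Real.cosh_sq' (x - Real.pi)
    rw [← h2]
    field_simp

lemma sin_mul_cos_arctan (y : ℝ) :
    Real.sin (Real.arctan y) * Real.cos (Real.arctan y) = y / (1 + y ^ 2) := by
  rw [Real.sin_arctan, Real.cos_arctan]
  have h : 0 < 1 + y ^ 2 := by positivity
  have h2 : √(1 + y ^ 2) * √(1 + y ^ 2) = 1 + y ^ 2 := Real.mul_self_sqrt h.le
  rw [div_mul_div_comm, h2, mul_one]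

lemma F'_eq (x : ℝ) : F' x = -(a x * Real.sin (φ x) * Real.cos (φ x)) := by
  rw [mul_assoc]
  unfold φ
  rw [sin_mul_cos_arctan]
  unfold a F' s glue
  split_ifs
  · have h := Real.cosh_pos (x + Real.pi)
    have h2 := Real.cosh_sq' (x + Real.pi)
    rw [← h2]
    ring
  · have h : 0 < 1 + Real.sin x ^ 2 := by positivity
    have h3 : 1 + (-Real.sin x) ^ 2 = 1 + Real.sin x ^ 2 := by ring
    rw [h3]
    field_simp
  · have h := Real.cosh_pos (x - Real.pi)
    have h2 := Real.cosh_sq' (x - Real.pi)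
    rw [← h2]
    ring

lemma hasDerivAt_φ (x : ℝ) : HasDerivAt φ (g x) x := by
  have := (hasDerivAt_s x).arctan
  unfold φ g
  convert this using 1
  ring

lemma continuous_s : Continuous s :=
  continuous_iff_continuousAt.mpr fun x => (hasDerivAt_s x).continuousAt

lemma continuous_F : Continuous F :=
  continuous_iff_continuousAt.mpr fun x => (hasDerivAt_F x).continuousAt

lemma continuous_a : Continuous a :=
  continuous_iff_continuousAt.mpr fun x => (hasDerivAt_a x).continuousAt

lemma continuous_φ : Continuous φ :=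
  continuous_iff_continuousAt.mpr fun x => (hasDerivAt_φ x).continuousAt

lemma a_bounds (x : ℝ) : 1 ≤ a x ∧ a x ≤ 2 := by
  unfold a
  refine glue_cases (P := fun _ y => 1 ≤ y ∧ y ≤ 2) _ _ _ ?_ ?_ ?_ x
  · intro x _; norm_num
  · intro x _ _
    have := Real.sin_sq_le_one x
    constructor
    · nlinarith [sq_nonneg (Real.sin x)]
    · linarith
  · intro x _; norm_num

lemma g_eq (x : ℝ) : g x = F x / a x := by
  have h := (a_bounds x).1
  rw [← a_mul_g]
  field_simp

lemma continuous_g : Continuous g := by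
  have : g = fun x => F x / a x := funext g_eq
  rw [this]
  exact continuous_F.div continuous_a fun x => by
    have := (a_bounds x).1
    linarith

/-! ### Square integrability -/

lemma inv_cosh_sq_le (y : ℝ) : ((Real.cosh y)⁻¹) ^ 2 ≤ (1 + y ^ 2)⁻¹ := by
  rw [inv_pow]
  apply inv_anti₀ (by positivity)
  rw [Real.cosh_sq']
  have : y ^ 2 ≤ Real.sinh y ^ 2 := by
    rw [sq_le_sq]
    rcases le_total 0 y with h | h
    · rw [abs_of_nonneg h, abs_of_nonneg (Real.sinh_nonneg_iff.mpr h)]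
      exact Real.self_le_sinh_iff.mpr h
    · rw [abs_of_nonpos h, abs_of_nonpos (Real.sinh_nonpos_iff.mpr h)]
      have := Real.sinh_le_self_iff.mpr h
      linarith
  linarith

lemma F_sq_le (x : ℝ) :
    F x ^ 2 ≤ (1 + (x + Real.pi) ^ 2)⁻¹ + (1 + 4 * Real.pi ^ 2) * (1 + (x - Real.pi) ^ 2)⁻¹ := by
  have hpi := Real.pi_pos
  unfold F
  refine glue_cases (P := fun x y => y ^ 2 ≤ (1 + (x + Real.pi) ^ 2)⁻¹ +
    (1 + 4 * Real.pi ^ 2) * (1 + (x - Real.pi) ^ 2)⁻¹) _ _ _ ?_ ?_ ?_ x
  · intro x _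
    have h1 := inv_cosh_sq_le (x + Real.pi)
    have h2 : 0 ≤ (1 + 4 * Real.pi ^ 2) * (1 + (x - Real.pi) ^ 2)⁻¹ := by positivity
    linarith
  · intro x h1 h2
    have h3 : (-Real.cos x) ^ 2 ≤ 1 := by
      have := Real.cos_sq_le_one x
      linarith [neg_sq (Real.cos x)]
    have h4 : 1 ≤ (1 + 4 * Real.pi ^ 2) * (1 + (x - Real.pi) ^ 2)⁻¹ := by
      rw [← div_eq_mul_inv, le_div_iff₀ (by positivity)]
      nlinarith
    have h5 : 0 ≤ (1 + (x + Real.pi) ^ 2)⁻¹ := by positivity
    linarith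
  · intro x _
    have h1 := inv_cosh_sq_le (x - Real.pi)
    have h2 : 0 ≤ (1 + (x - Real.pi) ^ 2)⁻¹ := by positivity
    have h3 : 0 ≤ (1 + (x + Real.pi) ^ 2)⁻¹ := by positivity
    nlinarith [mul_nonneg (mul_nonneg (by norm_num : (0:ℝ) ≤ 4) (sq_nonneg Real.pi)) h2]

lemma memLp_g : MemLp g 2 volume := by
  rw [memLp_two_iff_integrable_sq continuous_g.aestronglyMeasurable]
  have h1 : Integrable (fun x : ℝ => (1 + (x + Real.pi) ^ 2)⁻¹) :=
    integrable_inv_one_add_sq.comp_add_right Real.pi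
  have h2 : Integrable (fun x : ℝ => (1 + (x - Real.pi) ^ 2)⁻¹) :=
    integrable_inv_one_add_sq.comp_sub_right Real.pi
  refine (h1.add (h2.const_mul (1 + 4 * Real.pi ^ 2))).mono'
    (continuous_g.pow 2).aestronglyMeasurable (Eventually.of_forall fun x => ?_)
  have h3 := F_sq_le x
  have h4 := (a_bounds x).1
  have h5 : g x ^ 2 ≤ F x ^ 2 := by
    rw [← a_mul_g, mul_pow]
    have : 1 ≤ a x ^ 2 := by nlinarith
    nlinarith [sq_nonneg (g x)]
  rw [Real.norm_of_nonneg (sq_nonneg _)]
  simpa using h5.trans h3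

/-! ### Integration by parts against test functions -/

lemma integral_by_parts {f f' : ℝ → ℝ} (hf : ∀ x, HasDerivAt f (f' x) x) (hf' : Continuous f')
    {η : ℝ → ℝ} {Ω : Set ℝ} (hη : IsTest Ω η) :
    ∫ x, f x * deriv η x = - ∫ x, f' x * η x := by
  obtain ⟨h1, h2, -⟩ := hη
  have hfc : Continuous f := continuous_iff_continuousAt.mpr fun x => (hf x).continuousAt
  have hd : Continuous (deriv η) := h1.continuous_deriv (by simp)
  have hdiff : Differentiable ℝ η := h1.differentiable (by simp)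
  refine integral_mul_deriv_eq_deriv_mul_of_integrable (u := f) (v := η) (u' := f')
    (v' := deriv η) (fun x _ => hf x) (fun x _ => (hdiff x).hasDerivAt) ?_ ?_ ?_
  · exact (hfc.mul hd).integrable_of_hasCompactSupport (h2.deriv.mul_left)
  · exact (hf'.mul h1.continuous).integrable_of_hasCompactSupport (h2.mul_left)
  · exact (hfc.mul h1.continuous).integrable_of_hasCompactSupport (h2.mul_left)

lemma continuous_F' : Continuous F' := by
  have : F' = fun x => -(a x * Real.sin (φ x) * Real.cos (φ x)) := funext F'_eq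
  rw [this]
  exact ((continuous_a.mul (Real.continuous_sin.comp continuous_φ)).mul
    (Real.continuous_cos.comp continuous_φ)).neg

/-! ### The constraints -/

lemma tendsto_s_atTop : Tendsto s atTop atTop := by
  have hpi := Real.pi_pos
  refine tendsto_atTop_mono' atTop ?_
    (tendsto_atTop_add_const_right atTop (-Real.pi) tendsto_id)
  filter_upwards [eventually_gt_atTop Real.pi] with x hx
  have h : s x = Real.sinh (x - Real.pi) := by
    unfold s glue
    rw [if_neg (not_le.mpr hx)]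
  rw [h]
  have := Real.self_le_sinh_iff.mpr (show 0 ≤ x - Real.pi by linarith)
  simpa [sub_eq_add_neg] using this

lemma tendsto_s_atBot : Tendsto s atBot atBot := by
  have hpi := Real.pi_pos
  refine tendsto_atBot_mono' atBot ?_
    (tendsto_atBot_add_const_right atBot (Real.pi) tendsto_id)
  filter_upwards [eventually_lt_atBot (-Real.pi)] with x hx
  have h : s x = Real.sinh (x + Real.pi) := by
    unfold s glue
    rw [if_pos (by linarith), if_pos hx.le]
  rw [h]
  have := Real.sinh_le_self_iff.mpr (show x + Real.pi ≤ 0 by linarith)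
  simpa using this

lemma φ_mid {x : ℝ} (h₁ : -Real.pi < x) (h₂ : x ≤ Real.pi) :
    φ x = Real.arctan (-Real.sin x) := by
  unfold φ s glue
  rw [if_pos h₂, if_neg (not_le.mpr h₁)]

lemma constraint_φ : Constraint φ := by
  have hpi := Real.pi_pos
  refine ⟨?_, ?_, ?_⟩
  · rw [φ_mid (by linarith) hpi.le]
    simp
  · exact (tendsto_nhds_of_tendsto_nhdsWithin Real.tendsto_arctan_atTop).comp tendsto_s_atTop
  · exact (tendsto_nhds_of_tendsto_nhdsWithin Real.tendsto_arctan_atBot).comp tendsto_s_atBot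

lemma s_odd (x : ℝ) : s (-x) = - s x := by
  have hpi := Real.pi_pos
  unfold s glue
  rcases lt_trichotomy x Real.pi with h | h | h
  · rcases lt_trichotomy x (-Real.pi) with h' | h' | h'
    · rw [if_neg (by linarith), if_pos (by linarith), if_pos h'.le, ← Real.sinh_neg]
      ring_nf
    · subst h'
      have h1 : Real.pi ≤ Real.pi := le_rfl
      have h2 : ¬ (Real.pi ≤ -Real.pi) := by linarith
      simp [h2, hpi.le]
    · rw [if_pos (by linarith), if_neg (by linarith), if_pos h.le, if_neg (by linarith)]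
      simp
  · subst h
    have h2 : ¬ (Real.pi ≤ -Real.pi) := by linarith
    simp [h2, hpi.le]
  · rw [if_pos (by linarith), if_pos (by linarith), if_neg (by linarith), ← Real.sinh_neg]
    ring_nf

lemma a_even (x : ℝ) : a (-x) = a x := by
  have hpi := Real.pi_pos
  unfold a glue
  rcases lt_trichotomy x Real.pi with h | h | h
  · rcases lt_trichotomy x (-Real.pi) with h' | h' | h'
    · rw [if_neg (by linarith), if_pos (by linarith), if_pos h'.le]
    · subst h'
      have h2 : ¬ (Real.pi ≤ -Real.pi) := by linarith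
      simp [h2, hpi.le]
    · rw [if_pos (by linarith), if_neg (by linarith), if_pos h.le, if_neg (by linarith)]
      simp
  · subst h
    have h2 : ¬ (Real.pi ≤ -Real.pi) := by linarith
    simp [h2, hpi.le]
  · rw [if_pos (by linarith), if_pos (by linarith), if_neg (by linarith)]

lemma φ_odd (x : ℝ) : φ (-x) = -φ x := by
  unfold φ
  rw [s_odd, Real.arctan_neg]

lemma φ_neg {x : ℝ} (h₁ : 0 < x) (h₂ : x < Real.pi) : φ x < 0 := by
  have hpi := Real.pi_pos
  rw [φ_mid (by linarith) h₂.le]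
  have := Real.sin_pos_of_pos_of_lt_pi h₁ h₂
  rw [Real.arctan_neg]
  have := Real.arctan_pos.mpr this
  linarith

/-! ### The main statement -/

lemma isWeight_a : IsWeight a :=
  ⟨continuous_a.measurable, 1, 2, one_pos, one_le_two, Eventually.of_forall a_bounds⟩

lemma isHdotOne_φ : IsHdotOne φ g :=
  ⟨continuous_φ, memLp_g, fun _ hη => integral_by_parts hasDerivAt_φ continuous_g hη⟩

lemma solvesE : SolvesE univ a φ g := by
  intro η hη
  have h := integral_by_parts hasDerivAt_F continuous_F' hη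
  simp_rw [a_mul_g]
  rw [h, ← integral_neg]
  congr 1
  ext x
  rw [F'_eq]
  ring

lemma continuous_deriv_a :
    Continuous (glue (fun _ => 0) (fun x => 2 * Real.sin x * Real.cos x) (fun _ => 0)) := by
  have hpi := Real.pi_pos
  have h2 : ¬ (Real.pi ≤ -Real.pi) := by linarith
  unfold glue
  refine Continuous.if_le (Continuous.if_le continuous_const (by fun_prop) continuous_id
    continuous_const ?_) continuous_const continuous_id continuous_const ?_
  · intro x hx
    subst hx
    simp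
  · intro x hx
    subst hx
    simp [h2]

lemma contDiff_a : ContDiff ℝ 1 a := by
  rw [contDiff_one_iff_deriv]
  refine ⟨fun x => (hasDerivAt_a x).differentiableAt, ?_⟩
  have : deriv a = glue (fun _ => 0) (fun x => 2 * Real.sin x * Real.cos x) (fun _ => 0) :=
    funext fun x => (hasDerivAt_a x).deriv
  rw [this]
  exact continuous_deriv_a

/-- **Disproof of Q1.** There are a weight `a` (even, of class `C¹`, with `1 ≤ a ≤ 2`) and a
function `φ ∈ Ḣ¹(ℝ)` solving (E) in `ℝ ∖ {0}` (and even in `ℝ`) and satisfying (K), such that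
`φ < 0` on `(0, π)` and `φ > 0` on `(-π, 0)`. -/
theorem result :
    ∃ a φ g : ℝ → ℝ, IsWeight a ∧ (ContDiff ℝ 1 a ∧ (∀ x, 1 ≤ a x ∧ a x ≤ 2) ∧
        ∀ x, a (-x) = a x) ∧
      IsHdotOne φ g ∧ SolvesE {0}ᶜ a φ g ∧ SolvesE univ a φ g ∧ Constraint φ ∧
      ∀ x : ℝ, 0 < x → x < Real.pi → φ x < 0 ∧ 0 < φ (-x) := by
  refine ⟨a, φ, g, isWeight_a, ⟨contDiff_a, a_bounds, a_even⟩, isHdotOne_φ, ?_, solvesE,
    constraint_φ, ?_⟩
  · intro η hη
    exact solvesE η ⟨hη.1, hη.2.1, subset_univ _⟩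
  · intro x h₁ h₂
    have := φ_neg h₁ h₂
    exact ⟨this, by rw [φ_odd]; linarith⟩

end Pool.Agent.Results.MP_4601b9_an.CentreConstraint
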